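import Pool.Agent.Lib.MP_5022ed_ag.An.Transfer

set_option autoImplicit false

namespace Pool.Agent.Results.MP_5022ed_ag.Analytic

open Pool.Agent.Lib.MP_5022ed_ag

/-- Let `R` be an F-finite strongly F-regular Noetherian local ring of prime characteristic `p`
and dimension `d` with perfect residue field, whose completion is isomorphic to the completion of
a local ring essentially of finite type over a field. Then the F-splitting numbers satisfy
`a_e = s p^(e d) + C p^(e (d - 1)) + O(p^(e (d - 2)))`. -/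
theorem result (p : ℕ) (hp : p.Prime) (R : Type*) [CommRing R] [IsLocalRing R]
    [IsNoetherianRing R] [CharP R p] (d : ℕ) (hd : ringKrullDim R = (d : WithBot ℕ∞))
    (hperf : ∀ y : R, ∃ z : R, y - z ^ p ∈ IsLocalRing.maximalIdeal R)
    (hfin : ∃ S : Finset R, ∀ x : R, ∃ f : R → R, x = ∑ s ∈ S, f s ^ p * s)
    (hSFR : ∀ c : R, (∀ P ∈ minimalPrimes R, c ∉ P) → ∃ e : ℕ, 1 ≤ e ∧ ∃ φ : R →+ R,
      (∀ r y : R, φ (r ^ (p ^ e) * y) = r * φ y) ∧ φ c = 1)
    (k A : Type*) [Field k] [CommRing A] [IsLocalRing A] [Algebra k A] [Algebra.EssFiniteType k A]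
    (halg : Nonempty (AdicCompletion (IsLocalRing.maximalIdeal R) R ≃+*
      AdicCompletion (IsLocalRing.maximalIdeal A) A)) :
    ∃ s C K : ℝ, ∀ e : ℕ, ∃ a : ℕ,
      IsGreatest {n : ℕ | ∃ φ : Fin n → (R →+ R), ∃ x : Fin n → R,
          (∀ (i : Fin n) (r y : R), φ i (r ^ (p ^ e) * y) = r * φ i y) ∧
          ∀ i j : Fin n, φ i (x j) = if i = j then 1 else 0} a ∧
      |(a : ℝ) - s * (p : ℝ) ^ ((e : ℝ) * (d : ℝ))
          - C * (p : ℝ) ^ ((e : ℝ) * ((d : ℝ) - 1))|
        ≤ K * (p : ℝ) ^ ((e : ℝ) * ((d : ℝ) - 2)) := by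
  have : Fact p.Prime := ⟨hp⟩
  have : IsNoetherianRing A := Algebra.EssFiniteType.isNoetherianRing k A
  have : IsDomain R := isDomain_of_sfr hp.two_le hSFR
  have := cpl_noeth R
  have : Module.Finite R (Fr p 1 R) := by
    obtain ⟨S, hS⟩ := hfin
    refine .of_surjective (Fintype.linearCombination R fun s : S => Fr.mk p 1 (s : R)) fun x => ?_
    obtain ⟨x, rfl⟩ := (Fr.mk p 1).surjective x
    obtain ⟨f, rfl⟩ := hS x
    refine ⟨fun s => f s, ?_⟩
    rw [Fintype.linearCombination_apply, ← Finset.sum_coe_sort S, map_sum]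
    simp only [Fr.smul_mk, pow_one, smul_eq_mul]
  have hF : SFR p R := fun c hc => by
    obtain ⟨e, he, φ, hφ, h1⟩ := hSFR c fun P hP => by
      rw [IsDomain.minimalPrimes_eq_singleton_bot] at hP
      rw [Set.mem_singleton_iff.1 hP]
      simpa using hc
    exact ⟨e, he, { toFun := fun r => φ ((Fr.mk p e).symm r)
                    map_add' := fun a b => by rw [map_add, map_add]
                    map_smul' := fun r y => hφ r _ }, h1⟩
  obtain ⟨g⟩ := halg
  let _ : Algebra A (AdicCompletion (IsLocalRing.maximalIdeal R) R) :=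
    (g.symm.toRingHom.comp (algebraMap A _)).toAlgebra
  simp only [← dual_iff]
  exact zigzag (k := k) hp ((an_cpl A).equiv { g.symm with commutes' := fun _ => rfl })
    (an_cpl R) hd hperf hF

end Pool.Agent.Results.MP_5022ed_ag.Analytic
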